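import Mathlib

/-!
# The norms of the moment operators are not monotone in the number of concatenations
-/

namespace Pool.Agent.Results.MP_a4cf75_mp.NotMonotoneK

open Matrix MeasureTheory
open scoped Kronecker

section Group

variable (ι : Type) [Fintype ι] [DecidableEq ι]

noncomputable instance measU : MeasurableSpace (Matrix.unitaryGroup ι ℂ) := borel _

instance borelU : BorelSpace (Matrix.unitaryGroup ι ℂ) := ⟨rfl⟩

/-- The unitary group is compact. -/
instance compactU : CompactSpace (Matrix.unitaryGroup ι ℂ) := by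
  have hcl : IsClosed ((Matrix.unitaryGroup ι ℂ : Set (Matrix ι ι ℂ))) := by
    have : (Matrix.unitaryGroup ι ℂ : Set (Matrix ι ι ℂ)) = {A | A * star A = 1} := by
      ext A
      exact Matrix.mem_unitaryGroup_iff
    rw [this]
    exact isClosed_eq (continuous_id.mul continuous_star) continuous_const
  have hsub : (Matrix.unitaryGroup ι ℂ : Set (Matrix ι ι ℂ)) ⊆
      Set.pi Set.univ (fun _ : ι => Set.pi Set.univ (fun _ : ι => Metric.closedBall (0 : ℂ) 1)) := by
    intro A hA i _ j _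
    rw [mem_closedBall_zero_iff]
    exact entry_norm_bound_of_unitary hA i j
  have hc : IsCompact (Set.pi Set.univ
      (fun _ : ι => Set.pi Set.univ (fun _ : ι => Metric.closedBall (0 : ℂ) 1))) :=
    isCompact_univ_pi fun _ => isCompact_univ_pi fun _ => isCompact_closedBall _ _
  exact isCompact_iff_compactSpace.mp (hc.of_isClosed_subset hcl hsub)

/-- The Haar probability measure on the unitary group. -/
noncomputable def haarU : Measure (Matrix.unitaryGroup ι ℂ) := Measure.haarMeasure ⊤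

instance probU : IsProbabilityMeasure (haarU ι) :=
  ⟨by
    have := Measure.haarMeasure_self
      (K₀ := (⊤ : TopologicalSpace.PositiveCompacts (Matrix.unitaryGroup ι ℂ)))
    simpa [haarU] using this⟩

instance leftU : (haarU ι).IsMulLeftInvariant := by unfold haarU; infer_instance

end Group

/-- The channel with Stinespring unitary `V` and environment `ℂ^e` in the state `|0⟩`. -/
noncomputable def chan {d e : ℕ} [NeZero e] (V : Matrix (Fin d × Fin e) (Fin d × Fin e) ℂ)
    (X : Matrix (Fin d) (Fin d) ℂ) : Matrix (Fin d) (Fin d) ℂ :=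
  Matrix.of fun i j => ∑ m : Fin e, (V * (X ⊗ₖ Matrix.single (0 : Fin e) (0 : Fin e) (1 : ℂ) :
    Matrix (Fin d × Fin e) (Fin d × Fin e) ℂ) * Vᴴ : Matrix (Fin d × Fin e) (Fin d × Fin e) ℂ)
      (i, m) (j, m)

/-- The matrix of the `t`-fold tensor power of a linear map in the orthonormal basis of tensor
products of matrix units. -/
noncomputable def tens (t : ℕ) {d : ℕ}
    (Φ : Matrix (Fin d) (Fin d) ℂ → Matrix (Fin d) (Fin d) ℂ) :
    Matrix (Fin t → Fin d × Fin d) (Fin t → Fin d × Fin d) ℂ :=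
  Matrix.of fun p q => ∏ s, Φ (Matrix.single (q s).1 (q s).2 1) (p s).1 (p s).2

/-- The `t`-th order moment operator of the ensemble. -/
noncomputable def moment (t d e : ℕ) [NeZero e] :
    Matrix (Fin t → Fin d × Fin d) (Fin t → Fin d × Fin d) ℂ :=
  Matrix.of fun p q => ∫ V : Matrix.unitaryGroup (Fin d × Fin e) ℂ,
    tens t (chan (V : Matrix (Fin d × Fin e) (Fin d × Fin e) ℂ)) p q ∂(haarU (Fin d × Fin e))

/-- The squared Hilbert-Schmidt norm of the `k`-th power of the moment operator. -/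
noncomputable def N (t k d e : ℕ) [NeZero e] : ℝ := ∑ p, ∑ q, ‖(moment t d e ^ k) p q‖ ^ 2

/-! ### Fourth moments -/

section Moments

variable {ι : Type} [Fintype ι] [DecidableEq ι]

theorem int_cont {f : Matrix.unitaryGroup ι ℂ → ℂ} (hf : Continuous f) :
    Integrable f (haarU ι) :=
  hf.integrable_of_hasCompactSupport (HasCompactSupport.of_compactSpace _)

/-- A linear form in a column. -/
noncomputable def lf (u : ι → ℂ) (b : ι) (V : Matrix.unitaryGroup ι ℂ) : ℂ :=
  ∑ x, u x * (V : Matrix ι ι ℂ) x b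

theorem entry_cont (x b : ι) :
    Continuous fun V : Matrix.unitaryGroup ι ℂ => (V : Matrix ι ι ℂ) x b :=
  (continuous_apply b).comp ((continuous_apply x).comp continuous_subtype_val)

/-- The fourth moments. -/
noncomputable def m4 (b b' c c' : ι) (x x' y y' : ι) : ℂ :=
  ∫ V : Matrix.unitaryGroup ι ℂ, (V : Matrix ι ι ℂ) x b * (V : Matrix ι ι ℂ) x' b' *
    star ((V : Matrix ι ι ℂ) y c) * star ((V : Matrix ι ι ℂ) y' c') ∂(haarU ι)

theorem m4_int (b b' c c' : ι) (x x' y y' : ι) :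
    Integrable (fun V : Matrix.unitaryGroup ι ℂ => (V : Matrix ι ι ℂ) x b *
      (V : Matrix ι ι ℂ) x' b' * star ((V : Matrix ι ι ℂ) y c) *
      star ((V : Matrix ι ι ℂ) y' c')) (haarU ι) := by
  refine int_cont ?_
  exact (((entry_cont x b).mul (entry_cont x' b')).mul (entry_cont y c).star).mul
    (entry_cont y' c').star

omit [DecidableEq ι] in
theorem prod4 (a b c d : ι → ℂ) : (∑ z, a z) * (∑ z, b z) * (∑ z, c z) * (∑ z, d z) =
    ∑ z, ∑ z', ∑ w, ∑ w', a z * b z' * c w * d w' := by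
  simp only [← Finset.mul_sum, ← Finset.sum_mul]

theorem int_sum4 (f : ι → ι → ι → ι → Matrix.unitaryGroup ι ℂ → ℂ)
    (hf : ∀ z z' w w', Integrable (f z z' w w') (haarU ι)) :
    ∫ V, ∑ z, ∑ z', ∑ w, ∑ w', f z z' w w' V ∂(haarU ι) =
      ∑ z, ∑ z', ∑ w, ∑ w', ∫ V, f z z' w w' V ∂(haarU ι) := by
  rw [integral_finsetSum]
  · refine Finset.sum_congr rfl fun z _ => ?_
    rw [integral_finsetSum]
    · refine Finset.sum_congr rfl fun z' _ => ?_
      rw [integral_finsetSum]
      · refine Finset.sum_congr rfl fun w _ => ?_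
        rw [integral_finsetSum]
        exact fun w' _ => hf z z' w w'
      · exact fun w _ => integrable_finsetSum _ fun w' _ => hf z z' w w'
    · exact fun z' _ => integrable_finsetSum _ fun w _ => integrable_finsetSum _ fun w' _ =>
        hf z z' w w'
  · exact fun z _ => integrable_finsetSum _ fun z' _ => integrable_finsetSum _ fun w _ =>
      integrable_finsetSum _ fun w' _ => hf z z' w w'

theorem m4_inv (U : Matrix.unitaryGroup ι ℂ) (b b' c c' : ι) (x x' y y' : ι) :
    m4 b b' c c' x x' y y' = ∑ z, ∑ z', ∑ w, ∑ w', (U : Matrix ι ι ℂ) x z *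
      (U : Matrix ι ι ℂ) x' z' * star ((U : Matrix ι ι ℂ) y w) * star ((U : Matrix ι ι ℂ) y' w') *
      m4 b b' c c' z z' w w' := by
  have h1 := integral_mul_left_eq_self (μ := haarU ι) (fun V : Matrix.unitaryGroup ι ℂ =>
    (V : Matrix ι ι ℂ) x b * (V : Matrix ι ι ℂ) x' b' *
    star ((V : Matrix ι ι ℂ) y c) * star ((V : Matrix ι ι ℂ) y' c')) U
  have h2 : m4 b b' c c' x x' y y' = ∫ V : Matrix.unitaryGroup ι ℂ,
      ((U * V : Matrix.unitaryGroup ι ℂ) : Matrix ι ι ℂ) x b *
      ((U * V : Matrix.unitaryGroup ι ℂ) : Matrix ι ι ℂ) x' b' *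
    star (((U * V : Matrix.unitaryGroup ι ℂ) : Matrix ι ι ℂ) y c) *
    star (((U * V : Matrix.unitaryGroup ι ℂ) : Matrix ι ι ℂ) y' c') ∂(haarU ι) := h1.symm
  rw [h2]
  have h3 : ∀ V : Matrix.unitaryGroup ι ℂ,
      ((U * V : Matrix.unitaryGroup ι ℂ) : Matrix ι ι ℂ) x b *
      ((U * V : Matrix.unitaryGroup ι ℂ) : Matrix ι ι ℂ) x' b' *
      star (((U * V : Matrix.unitaryGroup ι ℂ) : Matrix ι ι ℂ) y c) *
      star (((U * V : Matrix.unitaryGroup ι ℂ) : Matrix ι ι ℂ) y' c') =
      ∑ z, ∑ z', ∑ w, ∑ w', (U : Matrix ι ι ℂ) x z *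
      (U : Matrix ι ι ℂ) x' z' * star ((U : Matrix ι ι ℂ) y w) * star ((U : Matrix ι ι ℂ) y' w') *
      ((V : Matrix ι ι ℂ) z b * (V : Matrix ι ι ℂ) z' b' *
      star ((V : Matrix ι ι ℂ) w c) * star ((V : Matrix ι ι ℂ) w' c')) := by
    intro V
    rw [Matrix.UnitaryGroup.mul_val]
    simp only [Matrix.mul_apply, star_sum, star_mul']
    rw [prod4]
    refine Finset.sum_congr rfl fun z _ => Finset.sum_congr rfl fun z' _ =>
      Finset.sum_congr rfl fun w _ => Finset.sum_congr rfl fun w' _ => ?_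
    ring
  simp only [h3]
  rw [int_sum4 _ fun z z' w w' => (m4_int b b' c c' z z' w w').const_mul _]
  refine Finset.sum_congr rfl fun z _ => Finset.sum_congr rfl fun z' _ =>
      Finset.sum_congr rfl fun w _ => Finset.sum_congr rfl fun w' _ => ?_
  rw [integral_const_mul]
  rfl

/-- Diagonal phases. -/
theorem m4_phase (m : ι) (b b' c c' : ι) (x x' y y' : ι) :
    m4 b b' c c' x x' y y' = (if x = m then Complex.I else 1) * (if x' = m then Complex.I else 1) *
      star (if y = m then Complex.I else 1) * star (if y' = m then Complex.I else 1) *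
      m4 b b' c c' x x' y y' := by
  have hU : Matrix.diagonal (fun i : ι => if i = m then Complex.I else 1) ∈
      Matrix.unitaryGroup ι ℂ := by
    rw [Matrix.mem_unitaryGroup_iff, Matrix.star_eq_conjTranspose, Matrix.diagonal_conjTranspose,
      Matrix.diagonal_mul_diagonal, ← Matrix.diagonal_one]
    congr 1
    funext i
    simp only [Pi.star_apply]
    split_ifs <;> simp
  refine (m4_inv ⟨_, hU⟩ b b' c c' x x' y y').trans ?_
  rw [Finset.sum_eq_single x, Finset.sum_eq_single x', Finset.sum_eq_single y,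
    Finset.sum_eq_single y']
  · simp only [Matrix.diagonal_apply_eq]
  · intro z _ hz
    simp [Matrix.diagonal_apply_ne' _ hz]
  · intro h; simp at h
  · intro z _ hz
    simp [Matrix.diagonal_apply_ne' _ hz]
  · intro h; simp at h
  · intro z _ hz
    simp [Matrix.diagonal_apply_ne' _ hz]
  · intro h; simp at h
  · intro z _ hz
    simp [Matrix.diagonal_apply_ne' _ hz]
  · intro h; simp at h

/-- The moments vanish unless the row indices match. -/
theorem m4_zero (b b' c c' : ι) (x x' y y' : ι) (h1 : ¬ (x = y ∧ x' = y'))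
    (h2 : ¬ (x = y' ∧ x' = y)) : m4 b b' c c' x x' y y' = 0 := by
  have key : ∀ m : ι, (if x = m then Complex.I else 1) * (if x' = m then Complex.I else 1) *
      star (if y = m then Complex.I else 1) * star (if y' = m then Complex.I else 1) ≠ 1 →
      m4 b b' c c' x x' y y' = 0 := by
    intro m hm
    have h := m4_phase m b b' c c' x x' y y'
    have h3 : (1 - (if x = m then Complex.I else 1) * (if x' = m then Complex.I else 1) *
      star (if y = m then Complex.I else 1) * star (if y' = m then Complex.I else 1)) *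
      m4 b b' c c' x x' y y' = 0 := by
      rw [sub_mul, one_mul, sub_eq_zero]
      exact h
    rcases mul_eq_zero.mp h3 with h4 | h4
    · exact absurd (sub_eq_zero.mp h4).symm hm
    · exact h4
  have hI : Complex.I ≠ 1 := by
    intro h; have := congrArg Complex.im h; simp at this
  by_cases hxy : x = y
  · have hx'y' : x' ≠ y' := fun h => h1 ⟨hxy, h⟩
    refine key x' ?_
    subst hxy
    rw [if_neg (Ne.symm hx'y')]
    by_cases hxx : x = x'
    · rw [if_pos hxx]
      simp [hI]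
    · rw [if_neg hxx]
      simp [hI]
  · by_cases hxy' : x = y'
    · have hx'y : x' ≠ y := fun h => h2 ⟨hxy', h⟩
      refine key x' ?_
      subst hxy'
      rw [if_neg (Ne.symm hx'y)]
      by_cases hxx : x = x'
      · rw [if_pos hxx]
        simp [hI]
      · rw [if_neg hxx]
        simp [hI]
    · refine key x ?_
      rw [if_neg (Ne.symm hxy), if_neg (Ne.symm hxy')]
      by_cases hxx : x' = x
      · simp [hxx]
        norm_num
      · simp [hxx, hI]

/-- Permutations of the rows. -/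
theorem m4_perm (σ : Equiv.Perm ι) (b b' c c' : ι) (x x' y y' : ι) :
    m4 b b' c c' x x' y y' = m4 b b' c c' (σ x) (σ x') (σ y) (σ y') := by
  have hU : (Matrix.of fun i j : ι => if j = σ i then (1 : ℂ) else 0) ∈
      Matrix.unitaryGroup ι ℂ := by
    rw [Matrix.mem_unitaryGroup_iff, Matrix.star_eq_conjTranspose]
    ext i j
    rw [Matrix.mul_apply, Finset.sum_eq_single (σ i)]
    · simp [Matrix.conjTranspose_apply, Matrix.one_apply]
    · intro k _ hk
      simp [hk]
    · intro h; simp at h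
  refine (m4_inv ⟨_, hU⟩ b b' c c' x x' y y').trans ?_
  rw [Finset.sum_eq_single (σ x), Finset.sum_eq_single (σ x'), Finset.sum_eq_single (σ y),
    Finset.sum_eq_single (σ y')]
  · simp
  · intro z _ hz
    simp [hz]
  · intro h; simp at h
  · intro z _ hz
    simp [hz]
  · intro h; simp at h
  · intro z _ hz
    simp [hz]
  · intro h; simp at h
  · intro z _ hz
    simp [hz]
  · intro h; simp at h

omit [Fintype ι] in
theorem perm_pair {s t x x' : ι} (hst : s ≠ t) (hx : x ≠ x') :
    ∃ σ : Equiv.Perm ι, σ s = x ∧ σ t = x' := by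
  refine ⟨(Equiv.swap s x).trans (Equiv.swap (Equiv.swap s x t) x'), ?_, ?_⟩
  · rw [Equiv.trans_apply, Equiv.swap_apply_left]
    apply Equiv.swap_apply_of_ne_of_ne
    · intro h
      apply hst
      apply (Equiv.swap s x).injective
      rw [Equiv.swap_apply_left]
      exact h
    · exact hx
  · rw [Equiv.trans_apply, Equiv.swap_apply_left]

/-- The sums over the rows. -/
theorem m4_sum1 (b b' c c' : ι) :
    ∑ x, ∑ x', m4 b b' c c' x x' x x' = (if b = c then 1 else 0) * (if b' = c' then 1 else 0) := by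
  have h1 : ∀ x x', Integrable (fun V : Matrix.unitaryGroup ι ℂ => (V : Matrix ι ι ℂ) x b *
      (V : Matrix ι ι ℂ) x' b' * star ((V : Matrix ι ι ℂ) x c) *
      star ((V : Matrix ι ι ℂ) x' c')) (haarU ι) := fun x x' => m4_int b b' c c' x x' x x'
  have h2 : ∑ x, ∑ x', m4 b b' c c' x x' x x' = ∫ V : Matrix.unitaryGroup ι ℂ,
      ∑ x, ∑ x', (V : Matrix ι ι ℂ) x b * (V : Matrix ι ι ℂ) x' b' *
      star ((V : Matrix ι ι ℂ) x c) * star ((V : Matrix ι ι ℂ) x' c') ∂(haarU ι) := by
    rw [integral_finsetSum _ fun x _ => integrable_finsetSum _ fun x' _ => h1 x x']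
    refine Finset.sum_congr rfl fun x _ => ?_
    rw [integral_finsetSum _ fun x' _ => h1 x x']
    rfl
  rw [h2]
  have h3 : ∀ V : Matrix.unitaryGroup ι ℂ, ∑ x, ∑ x', (V : Matrix ι ι ℂ) x b *
      (V : Matrix ι ι ℂ) x' b' * star ((V : Matrix ι ι ℂ) x c) * star ((V : Matrix ι ι ℂ) x' c') =
      (if b = c then 1 else 0) * (if b' = c' then 1 else 0) := by
    intro V
    have e : ∀ p q : ι, ∑ x, (V : Matrix ι ι ℂ) x p * star ((V : Matrix ι ι ℂ) x q) =
        if p = q then 1 else 0 := by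
      intro p q
      have hV := congrFun (congrFun (Matrix.mem_unitaryGroup_iff'.mp V.2) q) p
      rw [Matrix.mul_apply, Matrix.one_apply] at hV
      rw [show (if p = q then (1 : ℂ) else 0) = if q = p then 1 else 0 by simp [eq_comm], ← hV]
      refine Finset.sum_congr rfl fun x _ => ?_
      rw [Matrix.star_apply, mul_comm]
    rw [← e b c, ← e b' c', Finset.sum_mul_sum]
    refine Finset.sum_congr rfl fun x _ => Finset.sum_congr rfl fun x' _ => ?_
    ring
  simp only [h3]
  simp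

theorem m4_swap (b b' c c' : ι) (x x' y y' : ι) :
    m4 b b' c c' x x' y y' = m4 b b' c' c x x' y' y := by
  unfold m4
  refine integral_congr_ae (Filter.Eventually.of_forall fun V => ?_)
  simp only
  ring

/-- The moments in terms of three of them. -/
theorem m4_val0 {s t : ι} (hst : s ≠ t) (b b' c c' : ι) (x x' y y' : ι) :
    m4 b b' c c' x x' y y' =
      if x = x' then (if x = y ∧ x' = y' then m4 b b' c c' s s s s else 0)
      else (if x = y ∧ x' = y' then m4 b b' c c' s t s t else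
        if x = y' ∧ x' = y then m4 b b' c c' s t t s else 0) := by
  by_cases hx : x = x'
  · rw [if_pos hx]
    split_ifs with h
    · obtain ⟨h1, h2⟩ := h
      subst h1; subst h2; subst hx
      rw [m4_perm (Equiv.swap x s) b b' c c' x x x x, Equiv.swap_apply_left]
    · refine m4_zero _ _ _ _ _ _ _ _ h ?_
      rintro ⟨h1, h2⟩
      subst hx
      exact h ⟨h2, h1⟩
  · rw [if_neg hx]
    obtain ⟨σ, h1, h2⟩ := perm_pair hst hx
    split_ifs with h h'
    · obtain ⟨e1, e2⟩ := h
      subst e1; subst e2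
      rw [m4_perm σ b b' c c' s t s t, h1, h2]
    · obtain ⟨e1, e2⟩ := h'
      subst e1; subst e2
      rw [m4_perm σ b b' c c' s t t s, h1, h2]
    · exact m4_zero _ _ _ _ _ _ _ _ h h'

end Moments

/-- The index set of the four dimensional space. -/
abbrev Q := Fin 2 × Fin 2

/-- A rational rotation of the first factor. -/
noncomputable def rotM : Matrix Q Q ℂ :=
  (!![3 / 5, 4 / 5; -(4 / 5), 3 / 5] : Matrix (Fin 2) (Fin 2) ℂ) ⊗ₖ (1 : Matrix (Fin 2) (Fin 2) ℂ)

theorem rotM_mem : rotM ∈ Matrix.unitaryGroup Q ℂ := by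
  rw [Matrix.mem_unitaryGroup_iff, Matrix.star_eq_conjTranspose]
  unfold rotM
  rw [Matrix.conjTranspose_kronecker, ← Matrix.mul_kronecker_mul, Matrix.conjTranspose_one, mul_one,
    ← Matrix.one_kronecker_one]
  congr 1
  have h3 : (starRingEnd ℂ) 3 = 3 := Complex.conj_ofNat 3
  have h4 : (starRingEnd ℂ) 4 = 4 := Complex.conj_ofNat 4
  have h5 : (starRingEnd ℂ) 5 = 5 := Complex.conj_ofNat 5
  ext i j
  fin_cases i <;> fin_cases j <;>
    simp [Matrix.mul_apply, Fin.sum_univ_two, Matrix.conjTranspose_apply, h3, h4, h5] <;> norm_num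

theorem m4_rot (b b' c c' : Q) : m4 b b' c c' (0, 0) (0, 0) (0, 0) (0, 0) =
    m4 b b' c c' (0, 0) (1, 0) (0, 0) (1, 0) + m4 b b' c c' (0, 0) (1, 0) (1, 0) (0, 0) := by
  have h := m4_inv ⟨rotM, rotM_mem⟩ b b' c c' (0, 0) (0, 0) (0, 0) (0, 0)
  have hst : ((0, 0) : Q) ≠ (1, 0) := by decide
  have h3 : (starRingEnd ℂ) 3 = 3 := Complex.conj_ofNat 3
  have h4 : (starRingEnd ℂ) 4 = 4 := Complex.conj_ofNat 4
  have h5 : (starRingEnd ℂ) 5 = 5 := Complex.conj_ofNat 5
  have hv := m4_val0 hst b b' c c'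
  set c0 := m4 b b' c c' (0, 0) (0, 0) (0, 0) (0, 0) with hc0
  set c1 := m4 b b' c c' (0, 0) (1, 0) (0, 0) (1, 0) with hc1
  set c2 := m4 b b' c c' (0, 0) (1, 0) (1, 0) (0, 0) with hc2
  clear_value c0 c1 c2
  simp [hv, Fintype.sum_prod_type, Fin.sum_univ_two, rotM, h3, h4, h5] at h
  linear_combination (625 / 288) * h

/-- Kronecker delta. -/
def dl {α : Type} [DecidableEq α] (x y : α) : ℂ := if x = y then 1 else 0

theorem m4_form (b b' c c' x x' y y' : Q) :
    m4 b b' c c' x x' y y' =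
      dl x y * dl x' y' * m4 b b' c c' (0, 0) (1, 0) (0, 0) (1, 0) +
      dl x y' * dl x' y * m4 b b' c c' (0, 0) (1, 0) (1, 0) (0, 0) := by
  have hst : ((0, 0) : Q) ≠ (1, 0) := by decide
  rw [m4_val0 hst b b' c c' x x' y y', m4_rot]
  unfold dl
  by_cases hx : x = x'
  · subst hx
    rw [if_pos rfl]
    by_cases h1 : x = y
    · subst h1
      by_cases h2 : x = y'
      · subst h2; simp
      · simp [h2]
    · simp [h1]
  · rw [if_neg hx]
    by_cases h1 : x = y
    · subst h1
      by_cases h2 : x' = y'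
      · subst h2
        simp [hx]
      · simp [h2, Ne.symm hx]
    · by_cases h3 : x = y'
      · subst h3
        by_cases h4 : x' = y
        · subst h4
          simp [hx]
        · simp [h1, h4]
      · simp [h1, h3]

theorem m4_c (b b' c c' : Q) :
    m4 b b' c c' (0, 0) (1, 0) (0, 0) (1, 0) =
      (4 * (dl b c * dl b' c') - dl b c' * dl b' c) / 60 ∧
    m4 b b' c c' (0, 0) (1, 0) (1, 0) (0, 0) =
      (4 * (dl b c' * dl b' c) - dl b c * dl b' c') / 60 := by
  have h1 := m4_sum1 b b' c c'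
  have h2 := m4_sum1 b b' c' c
  have h3 : ∑ x : Q, ∑ x' : Q, m4 b b' c' c x x' x x' = ∑ x : Q, ∑ x' : Q, m4 b b' c c' x x' x' x := by
    refine Finset.sum_congr rfl fun x _ => Finset.sum_congr rfl fun x' _ => ?_
    rw [m4_swap]
  rw [h3] at h2
  have hf := m4_form b b' c c'
  set c1 := m4 b b' c c' (0, 0) (1, 0) (0, 0) (1, 0) with hc1
  set c2 := m4 b b' c c' (0, 0) (1, 0) (1, 0) (0, 0) with hc2
  clear_value c1 c2
  have h4 : 16 * c1 + 4 * c2 = dl b c * dl b' c' := by
    have : (if b = c then (1 : ℂ) else 0) * (if b' = c' then 1 else 0) = dl b c * dl b' c' := rfl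
    rw [this] at h1
    rw [← h1]
    simp only [hf]
    simp [Fintype.sum_prod_type, Fin.sum_univ_two, dl]
    ring
  have h5 : 16 * c2 + 4 * c1 = dl b c' * dl b' c := by
    have : (if b = c' then (1 : ℂ) else 0) * (if b' = c then 1 else 0) = dl b c' * dl b' c := rfl
    rw [this] at h2
    rw [← h2]
    simp only [hf]
    simp [Fintype.sum_prod_type, Fin.sum_univ_two, dl]
    ring
  constructor
  · linear_combination (1 / 15) * h4 - (1 / 60) * h5
  · linear_combination (1 / 15) * h5 - (1 / 60) * h4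

/-! ### The moment operator for `t = 2`, `d = 2`, environment dimension `2` -/

/-- The index set of the superoperator. -/
abbrev J := Fin 2 → Fin 2 × Fin 2

/-- The identity operator. -/
def f1 (p : J) : ℂ := dl (p 0).1 (p 0).2 * dl (p 1).1 (p 1).2

/-- The swap operator. -/
def fs (p : J) : ℂ := dl (p 0).1 (p 1).2 * dl (p 1).1 (p 0).2

/-- The traceless part of the swap operator. -/
noncomputable def f2 (p : J) : ℂ := fs p - f1 p / 2

theorem chan_entry (V : Matrix Q Q ℂ) (k l i j : Fin 2) :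
    chan V (Matrix.single k l 1) i j =
      ∑ m : Fin 2, V (i, m) (k, 0) * star (V (j, m) (l, 0)) := by
  unfold chan
  rw [Matrix.of_apply]
  refine Finset.sum_congr rfl fun m _ => ?_
  rw [Matrix.mul_apply, Finset.sum_eq_single (l, 0)]
  · rw [Matrix.mul_apply, Finset.sum_eq_single (k, 0)]
    · simp [Matrix.conjTranspose_apply, Matrix.kroneckerMap_apply]
    · intro x _ hx
      obtain ⟨x1, x2⟩ := x
      rw [Matrix.kroneckerMap_apply, Matrix.single_apply, Matrix.single_apply]
      by_cases h1 : k = x1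
      · have h2 : ¬ (0 = x2) := by
          intro h2; exact hx (by rw [h1, h2])
        simp [h2]
      · simp [h1]
    · intro h; simp at h
  · intro x _ hx
    obtain ⟨x1, x2⟩ := x
    rw [Matrix.mul_apply, Finset.sum_eq_zero, zero_mul]
    intro y _
    rw [Matrix.kroneckerMap_apply, Matrix.single_apply, Matrix.single_apply]
    by_cases h1 : l = x1
    · have h2 : ¬ (0 = x2) := by
        intro h2; exact hx (by rw [h1, h2])
      simp [h2]
    · simp [h1]
  · intro h; simp at h

theorem moment_entry (p q : J) : moment 2 2 2 p q =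
    ∑ m : Fin 2, ∑ m' : Fin 2, m4 ((q 0).1, 0) ((q 1).1, 0) ((q 0).2, 0) ((q 1).2, 0)
      ((p 0).1, m) ((p 1).1, m') ((p 0).2, m) ((p 1).2, m') := by
  have h1 : ∀ m m' : Fin 2, Integrable (fun V : Matrix.unitaryGroup Q ℂ =>
      (V : Matrix Q Q ℂ) ((p 0).1, m) ((q 0).1, 0) * (V : Matrix Q Q ℂ) ((p 1).1, m') ((q 1).1, 0) *
      star ((V : Matrix Q Q ℂ) ((p 0).2, m) ((q 0).2, 0)) *
      star ((V : Matrix Q Q ℂ) ((p 1).2, m') ((q 1).2, 0))) (haarU Q) := fun m m' => m4_int _ _ _ _ _ _ _ _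
  have h2 : ∀ V : Matrix.unitaryGroup Q ℂ, tens 2 (chan (V : Matrix Q Q ℂ)) p q =
      ∑ m : Fin 2, ∑ m' : Fin 2,
      (V : Matrix Q Q ℂ) ((p 0).1, m) ((q 0).1, 0) * (V : Matrix Q Q ℂ) ((p 1).1, m') ((q 1).1, 0) *
      star ((V : Matrix Q Q ℂ) ((p 0).2, m) ((q 0).2, 0)) *
      star ((V : Matrix Q Q ℂ) ((p 1).2, m') ((q 1).2, 0)) := by
    intro V
    unfold tens
    rw [Matrix.of_apply, Fin.prod_univ_two, chan_entry, chan_entry, Finset.sum_mul_sum]
    refine Finset.sum_congr rfl fun m _ => Finset.sum_congr rfl fun m' _ => ?_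
    ring
  unfold moment
  rw [Matrix.of_apply]
  simp only [h2]
  rw [integral_finsetSum _ fun m _ => integrable_finsetSum _ fun m' _ => h1 m m']
  refine Finset.sum_congr rfl fun m _ => ?_
  rw [integral_finsetSum _ fun m' _ => h1 m m']
  rfl

theorem dl_pair {α β : Type} [DecidableEq α] [DecidableEq β] (x y : α) (m m' : β) :
    dl (x, m) (y, m') = dl x y * dl m m' := by
  unfold dl
  by_cases h1 : x = y <;> by_cases h2 : m = m' <;> simp [h1, h2]

theorem moment_form (p q : J) : moment 2 2 2 p q =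
    1 / 4 * (f1 p * f1 q) + 1 / 30 * (f2 p * f1 q) + 2 / 15 * (f2 p * f2 q) := by
  rw [moment_entry]
  simp only [m4_form, (m4_c _ _ _ _).1, (m4_c _ _ _ _).2, dl_pair]
  have e0 : dl (0 : Fin 2) 0 = 1 := rfl
  have e1 : dl (1 : Fin 2) 1 = 1 := rfl
  have e2 : dl (0 : Fin 2) 1 = 0 := rfl
  have e3 : dl (1 : Fin 2) 0 = 0 := rfl
  simp only [Fin.sum_univ_two, e0, e1, e2, e3, f2, f1, fs]
  ring

/-! ### Powers -/

/-- A matrix of rank at most two. -/
noncomputable def R (a b : ℝ) : Matrix J J ℂ :=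
  Matrix.of fun p q => 1 / 4 * (f1 p * f1 q) + a * (f2 p * f1 q) + b * (f2 p * f2 q)

theorem sum_J (g : J → ℂ) : ∑ p, g p = ∑ i : Fin 2, ∑ j : Fin 2, ∑ k : Fin 2, ∑ l : Fin 2,
    g ![(i, j), (k, l)] := by
  rw [← (finTwoArrowEquiv (Fin 2 × Fin 2)).symm.sum_comp, Fintype.sum_prod_type,
    Fintype.sum_prod_type]
  refine Finset.sum_congr rfl fun i _ => Finset.sum_congr rfl fun j _ => ?_
  rw [Fintype.sum_prod_type]
  rfl

theorem s11 : ∑ p, f1 p * f1 p = 4 := by
  rw [sum_J]
  simp [Fin.sum_univ_two, f1, dl]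
  norm_num

theorem s12 : ∑ p, f1 p * f2 p = 0 := by
  rw [sum_J]
  simp [Fin.sum_univ_two, f1, f2, fs, dl]
  norm_num

theorem s22 : ∑ p, f2 p * f2 p = 3 := by
  rw [sum_J]
  simp [Fin.sum_univ_two, f1, f2, fs, dl]
  norm_num

theorem moment_eq : moment 2 2 2 = R (1 / 30) (2 / 15) := by
  ext p q
  rw [moment_form, R, Matrix.of_apply]
  push_cast
  ring

theorem R_mul (a b : ℝ) : R (1 / 30) (2 / 15) * R a b = R (1 / 30 + 2 / 5 * a) (2 / 5 * b) := by
  ext p q
  rw [Matrix.mul_apply]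
  simp only [R, Matrix.of_apply]
  have h : ∀ r : J, (1 / 4 * (f1 p * f1 r) + ((1 / 30 : ℝ) : ℂ) * (f2 p * f1 r) +
      ((2 / 15 : ℝ) : ℂ) * (f2 p * f2 r)) *
      (1 / 4 * (f1 r * f1 q) + (a : ℂ) * (f2 r * f1 q) + (b : ℂ) * (f2 r * f2 q)) =
      (1 / 16 * f1 p * f1 q + 1 / 120 * f2 p * f1 q) * (f1 r * f1 r) +
      (1 / 4 * a * f1 p * f1 q + 1 / 4 * b * f1 p * f2 q + 1 / 30 * a * f2 p * f1 q +
        1 / 30 * b * f2 p * f2 q + 1 / 30 * f2 p * f1 q) * (f1 r * f2 r) +
      (2 / 15 * a * f2 p * f1 q + 2 / 15 * b * f2 p * f2 q) * (f2 r * f2 r) := by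
    intro r
    push_cast
    ring
  simp only [h]
  rw [Finset.sum_add_distrib, Finset.sum_add_distrib, ← Finset.mul_sum, ← Finset.mul_sum,
    ← Finset.mul_sum, s11, s12, s22]
  push_cast
  ring

theorem f1_real (p : J) : ∃ x : ℝ, f1 p = x := by
  unfold f1 dl
  split_ifs
  · exact ⟨1, by simp⟩
  · exact ⟨0, by simp⟩
  · exact ⟨0, by simp⟩
  · exact ⟨0, by simp⟩

theorem f2_real (p : J) : ∃ x : ℝ, f2 p = x := by
  obtain ⟨x, hx⟩ := f1_real p
  have : ∃ y : ℝ, fs p = y := by
    unfold fs dl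
    split_ifs
    · exact ⟨1, by simp⟩
    · exact ⟨0, by simp⟩
    · exact ⟨0, by simp⟩
    · exact ⟨0, by simp⟩
  obtain ⟨y, hy⟩ := this
  exact ⟨y - x / 2, by unfold f2; rw [hx, hy]; push_cast; ring⟩

theorem R_norm (a b : ℝ) : ∑ p, ∑ q, ‖R a b p q‖ ^ 2 = 1 + 12 * a ^ 2 + 9 * b ^ 2 := by
  have h1 : ∀ p q : J, ((‖R a b p q‖ ^ 2 : ℝ) : ℂ) = R a b p q * R a b p q := by
    intro p q
    obtain ⟨x, hx⟩ := f1_real p
    obtain ⟨y, hy⟩ := f2_real p
    obtain ⟨x', hx'⟩ := f1_real q
    obtain ⟨y', hy'⟩ := f2_real q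
    have : R a b p q = ((1 / 4 * (x * x') + a * (y * x') + b * (y * y') : ℝ) : ℂ) := by
      rw [R, Matrix.of_apply, hx, hy, hx', hy']
      push_cast
      ring
    rw [this, Complex.norm_real, Real.norm_eq_abs, sq_abs, pow_two, Complex.ofReal_mul]
  have h2 : ((∑ p, ∑ q, ‖R a b p q‖ ^ 2 : ℝ) : ℂ) = ((1 + 12 * a ^ 2 + 9 * b ^ 2 : ℝ) : ℂ) := by
    rw [Complex.ofReal_sum]
    have h3 : ∀ p : J, ((∑ q, ‖R a b p q‖ ^ 2 : ℝ) : ℂ) =
        (1 / 16 * (f1 p * f1 p) + 1 / 2 * a * (f1 p * f2 p) + a ^ 2 * (f2 p * f2 p)) * 4 +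
        b ^ 2 * (f2 p * f2 p) * 3 := by
      intro p
      rw [Complex.ofReal_sum]
      simp only [h1]
      have h4 : ∀ q : J, R a b p q * R a b p q =
          (1 / 16 * (f1 p * f1 p) + 1 / 2 * a * (f1 p * f2 p) + a ^ 2 * (f2 p * f2 p)) *
            (f1 q * f1 q) +
          (1 / 2 * b * (f1 p * f2 p) + 2 * a * b * (f2 p * f2 p)) * (f1 q * f2 q) +
          b ^ 2 * (f2 p * f2 p) * (f2 q * f2 q) := by
        intro q
        simp only [R, Matrix.of_apply]
        ring
      simp only [h4]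
      rw [Finset.sum_add_distrib, Finset.sum_add_distrib, ← Finset.mul_sum, ← Finset.mul_sum,
        ← Finset.mul_sum, s11, s12, s22]
      ring
    simp only [h3]
    have h5 : ∀ p : J, (1 / 16 * (f1 p * f1 p) + 1 / 2 * (a : ℂ) * (f1 p * f2 p) +
        (a : ℂ) ^ 2 * (f2 p * f2 p)) * 4 + (b : ℂ) ^ 2 * (f2 p * f2 p) * 3 =
        1 / 4 * (f1 p * f1 p) + 2 * a * (f1 p * f2 p) + (4 * (a : ℂ) ^ 2 + 3 * (b : ℂ) ^ 2) *
          (f2 p * f2 p) := by
      intro p; ring
    simp only [h5]
    rw [Finset.sum_add_distrib, Finset.sum_add_distrib, ← Finset.mul_sum, ← Finset.mul_sum,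
        ← Finset.mul_sum, s11, s12, s22]
    push_cast
    ring
  exact_mod_cast h2

theorem moment_pow : moment 2 2 2 ^ 4 = R (203 / 3750) (16 / 1875) ∧
    moment 2 2 2 ^ 5 = R (1031 / 18750) (32 / 9375) := by
  have h4 : moment 2 2 2 ^ 4 = R (203 / 3750) (16 / 1875) := by
    rw [pow_succ', pow_succ', pow_succ', pow_one, moment_eq, R_mul, R_mul, R_mul]
    congr 1 <;> norm_num
  refine ⟨h4, ?_⟩
  rw [pow_succ', h4, moment_eq, R_mul]
  congr 1 <;> norm_num

/-- **Main result.** The squared norm is not monotone in the number `k` of concatenations: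
for `t = d = d_E = 2` it is larger for `k = 5` than for `k = 4`. -/
theorem result : N 2 4 2 2 < N 2 5 2 2 := by
  unfold N
  rw [moment_pow.1, moment_pow.2, R_norm, R_norm]
  norm_num

end Pool.Agent.Results.MP_a4cf75_mp.NotMonotoneK
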